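import Pool.Agent.MP_a23355_nt.H13.Main

namespace Pool.Agent.Results.MP_a23355_nt.ParityCount

theorem result (j m₀ : ℕ) (hj : 1 ≤ j) (hm : Odd m₀) (hjm : 2 ^ j < m₀) (A B : ℕ) (hA : 1 ≤ A)
    (r : ℕ) (hr : r < 2) : ∃ c : ℝ, 0 < c ∧ ∀ᶠ x : ℕ in Filter.atTop,
      c * (x : ℝ) ^ (4 / 5 : ℝ) / Real.log x ≤ (((Finset.range (x + 1)).filter fun n =>
        (Nat.Partition.restricted (A * n + B) fun i => ¬2 ^ j * m₀ ∣ i).card % 2 = r).card : ℝ) :=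
  Subb.Q.main (by omega) hm hjm (by omega) hr

end Pool.Agent.Results.MP_a23355_nt.ParityCount
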